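import Mathlib.Algebra.Group.Subsemigroup.Basic
import Mathlib.Algebra.Group.End
import Mathlib.Algebra.BigOperators.Group.List.Basic
import Mathlib.Algebra.Free
import Mathlib.Logic.Relation
import Mathlib.Data.Fintype.Prod

/-!
# MP_407f73_al : level-transitive automaton semigroups and freeness of the dual

We give a Mealy automaton with 4 letters and 6 states, all states acting by permutations, whose
automaton semigroup is transitive on the tree `A*`, such that the semigroup of the dual automaton
is not cancellative.  In particular it is not freely generated by the maps `a ∘ (·)`, and it is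
not even abstractly isomorphic to a free semigroup.
-/

namespace Pool.Agent.Results.MP_407f73_al.DualNotFree

/-- A Mealy automaton with state set `Q` and alphabet `A`: `next` is the transition function `δ`
and `out` is the output function `λ`. -/
structure Mealy (Q A : Type) where
  next : Q → A → Q
  out : Q → A → A

namespace Mealy

variable {Q A : Type}

/-- The action of a state `q` on words over `A`:
`q ∘ (a₁a₂⋯aₙ) = λ(q,a₁) (δ(q,a₁) ∘ (a₂⋯aₙ))`. -/
def act (M : Mealy Q A) : Q → List A → List A
  | _, [] => []
  | q, x :: w => M.out q x :: act M (M.next q x) w

/-- The dual automaton: states are the letters, letters are the states. -/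
def dual (M : Mealy Q A) : Mealy A Q where
  next x q := M.out q x
  out x q := M.next q x

/-- The action of a state, as an element of the monoid of all maps `A* → A*` under composition. -/
def toEnd (M : Mealy Q A) (q : Q) : Function.End (List A) := M.act q

/-- The automaton semigroup: the semigroup of maps `A* → A*` generated under composition by the
states. -/
def semigroup (M : Mealy Q A) : Subsemigroup (Function.End (List A)) :=
  Subsemigroup.closure (Set.range M.toEnd)

/-- `S(M)` is transitive on the tree: for every `n ≥ 1` it is transitive on the words of
length `n`. -/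
def Transitive (M : Mealy Q A) : Prop :=
  ∀ n : ℕ, 1 ≤ n → ∀ u v : List A, u.length = n → v.length = n →
    ∃ s ∈ M.semigroup, (s : List A → List A) u = v

/-- The semigroup of `M` is freely generated by the maps of its states: any two distinct non-empty
words over the state set induce distinct transformations. -/
def FreelyGenerated (M : Mealy Q A) : Prop :=
  ∀ u v : List Q, u ≠ [] → v ≠ [] → u ≠ v → (u.map M.toEnd).prod ≠ (v.map M.toEnd).prod

end Mealy

open Mealy

/-- The three basic states. -/
inductive B : Type
  | a | b | e
  deriving DecidableEq

instance : Fintype B := ⟨{B.a, B.b, B.e}, by intro x; cases x <;> decide⟩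

/-- The basic transition function (it only looks at the first coordinate of the letter). -/
def nx : B → Bool → B
  | B.a, false => B.e
  | B.a, true => B.a
  | B.b, false => B.e
  | B.b, true => B.b
  | B.e, _ => B.e

/-- The output function. -/
def ou : B → Bool × Bool → Bool × Bool
  | B.a, (c, t) => (!c, t)
  | B.b, (false, t) => (false, !t)
  | B.b, (true, t) => (true, t)
  | B.e, x => x

/-- The automaton: states are pairs (basic state, bit), the bit is overwritten by the second
coordinate of the letter that is read and has no other role. -/
def M : Mealy (B × Bool) (Bool × Bool) where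
  next q x := (nx q.1 x.1, x.2)
  out q x := ou q.1 x

theorem act_nil (q) : M.act q [] = [] := rfl

theorem act_cons (q : B × Bool) (x : Bool × Bool) (w) :
    M.act q (x :: w) = ou q.1 x :: M.act (nx q.1 x.1, x.2) w := rfl

theorem act_e (t : Bool) (w : List (Bool × Bool)) : M.act (B.e, t) w = w := by
  induction w generalizing t with
  | nil => rfl
  | cons x w ih => rw [act_cons]; simp [nx, ou, ih]

/-- the action does not depend on the bit -/
theorem act_bit (q : B) (t t' : Bool) (w : List (Bool × Bool)) :
    M.act (q, t) w = M.act (q, t') w := by
  cases w with
  | nil => rfl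
  | cons x w => rfl

theorem act_bij (q : B × Bool) : Function.Bijective (M.act q) := by
  have hou : ∀ q : B, ∀ x y : Bool × Bool, ou q x = ou q y → x = y := by decide
  have hsur : ∀ q : B, ∀ y : Bool × Bool, ∃ x, ou q x = y := by decide
  constructor
  · intro u
    induction u generalizing q with
    | nil =>
      intro v h
      cases v with
      | nil => rfl
      | cons y v => rw [act_cons, act_nil] at h; exact absurd h (by simp)
    | cons x u ih =>
      intro v h
      cases v with
      | nil => rw [act_cons, act_nil] at h; exact absurd h (by simp)
      | cons y v =>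
        rw [act_cons, act_cons, List.cons.injEq] at h
        obtain ⟨h1, h2⟩ := h
        have hxy := hou q.1 x y h1
        subst hxy
        rw [ih _ h2]
  · intro v
    induction v generalizing q with
    | nil => exact ⟨[], rfl⟩
    | cons y v ih =>
      obtain ⟨x, hx⟩ := hsur q.1 y
      obtain ⟨u, hu⟩ := ih (nx q.1 x.1, x.2)
      exact ⟨x :: u, by rw [act_cons, hx, hu]⟩

theorem act_length (q : B × Bool) (w : List (Bool × Bool)) : (M.act q w).length = w.length := by
  induction w generalizing q with
  | nil => rfl
  | cons x w ih => rw [act_cons]; simp [ih]

/-- `v` can be reached from `u` by applying finitely many states. -/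
def Reach (u v : List (Bool × Bool)) : Prop :=
  Relation.ReflTransGen (fun u v => ∃ q, v = M.act q u) u v

theorem Reach.one (q : B × Bool) (u) : Reach u (M.act q u) :=
  Relation.ReflTransGen.single ⟨q, rfl⟩

theorem Reach.mem {u v} (h : Reach u v) :
    ∃ s ∈ M.semigroup, (s : List (Bool × Bool) → List (Bool × Bool)) u = v := by
  induction h with
  | refl =>
    exact ⟨M.toEnd (B.e, false), Subsemigroup.subset_closure ⟨_, rfl⟩, act_e _ _⟩
  | tail _ h ih =>
    obtain ⟨s, hs, hsu⟩ := ih
    obtain ⟨q, rfl⟩ := h
    refine ⟨M.toEnd q * s, M.semigroup.mul_mem (Subsemigroup.subset_closure ⟨_, rfl⟩) hs, ?_⟩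
    show M.act q (s u) = _
    rw [hsu]

theorem a_false (t : Bool) (w) :
    M.act (B.a, false) ((false, t) :: w) = (true, t) :: w := by
  rw [act_cons]; simp only [nx, ou, act_e, Bool.not_false]

theorem a_true (t : Bool) (w) :
    M.act (B.a, false) ((true, t) :: w) = (false, t) :: M.act (B.a, false) w := by
  rw [act_cons]; simp only [nx, ou, Bool.not_true]; rw [act_bit]

theorem b_false (t : Bool) (w) :
    M.act (B.b, false) ((false, t) :: w) = (false, !t) :: w := by
  rw [act_cons]; simp only [nx, ou, act_e]

theorem b_true (t : Bool) (w) :
    M.act (B.b, false) ((true, t) :: w) = (true, t) :: M.act (B.b, false) w := by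
  rw [act_cons]; simp only [nx, ou]; rw [act_bit]

/-- Below a vertex starting with a letter `(1, t)`, everything that can be reached on the tail can
be reached keeping the first letter. -/
theorem Reach.lift {w w' : List (Bool × Bool)} (h : Reach w w') (t : Bool) :
    Reach ((true, t) :: w) ((true, t) :: w') := by
  induction h with
  | refl => exact Relation.ReflTransGen.refl
  | @tail w₁ w₂ _ h ih =>
    refine Relation.ReflTransGen.trans ih ?_
    obtain ⟨⟨q, r⟩, rfl⟩ := h
    rw [act_bit q r false]
    cases q with
    | a =>
      have h1 := Reach.one (B.a, false) ((true, t) :: w₁)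
      have h2 := Reach.one (B.a, false) (M.act (B.a, false) ((true, t) :: w₁))
      rw [a_true, a_false] at h2
      exact Relation.ReflTransGen.trans (by rw [a_true] at h1; exact h1) h2
    | b =>
      have h1 := Reach.one (B.b, false) ((true, t) :: w₁)
      rw [b_true] at h1
      exact h1
    | e =>
      rw [act_e]

/-- The second coordinate of the first letter can be changed. -/
theorem Reach.flip (t : Bool) (w : List (Bool × Bool)) :
    Reach ((true, t) :: w) ((true, !t) :: M.act (B.a, false) w) := by
  have h1 := Reach.one (B.a, false) ((true, t) :: w)
  rw [a_true] at h1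
  have h2 := Reach.one (B.b, false) ((false, t) :: M.act (B.a, false) w)
  rw [b_false] at h2
  have h3 := Reach.one (B.a, false) ((false, !t) :: M.act (B.a, false) w)
  rw [a_false] at h3
  exact (h1.trans h2).trans h3

theorem reach_all (n : ℕ) : ∀ u v : List (Bool × Bool), u.length = n → v.length = n →
    Reach u v := by
  induction n with
  | zero =>
    intro u v hu hv
    rw [List.length_eq_zero_iff] at hu hv
    subst hu; subst hv
    exact Relation.ReflTransGen.refl
  | succ n ih =>
    -- first: from any word one gets to a word starting with `(1, t)` with the same tail
    have step1 : ∀ (c t : Bool) (w : List (Bool × Bool)),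
        Reach ((c, t) :: w) ((true, t) :: w) := by
      intro c t w
      cases c with
      | true => exact Relation.ReflTransGen.refl
      | false =>
        have h := Reach.one (B.a, false) ((false, t) :: w)
        rw [a_false] at h
        exact h
    have step2 : ∀ (t t' : Bool) (w w' : List (Bool × Bool)), w.length = n → w'.length = n →
        Reach ((true, t) :: w) ((true, t') :: w') := by
      intro t t' w w' hw hw'
      by_cases htt : t = t'
      · subst htt
        exact Reach.lift (ih w w' hw hw') t
      · have ht' : t' = !t := by
          revert htt; revert t t'; decide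
        subst ht'
        refine (Reach.flip t w).trans (Reach.lift (ih _ _ ?_ hw') _)
        rw [act_length, hw]
    intro u v hu hv
    cases u with
    | nil => simp at hu
    | cons x u =>
      cases v with
      | nil => simp at hv
      | cons y v =>
        obtain ⟨c, t⟩ := x
        obtain ⟨c', t'⟩ := y
        have hu' : u.length = n := by simpa using hu
        have hv' : v.length = n := by simpa using hv
        refine (step1 c t u).trans ?_
        cases c' with
        | true => exact step2 t t' u v hu' hv'
        | false =>
          obtain ⟨v', hv2⟩ := (act_bij (B.a, false)).2 v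
          have hlen : v'.length = n := by rw [← act_length (B.a, false) v', hv2, hv']
          refine (step2 t t' u v' hu' hlen).trans ?_
          have h := Reach.one (B.a, false) ((true, t') :: v')
          rw [a_true, hv2] at h
          exact h

theorem transitive_M : M.Transitive := fun n _ u v hu hv => (reach_all n u v hu hv).mem

/-! ### The dual -/

theorem dual_act_cons (x : Bool × Bool) (q : B × Bool) (s : List (B × Bool)) :
    M.dual.act x (q :: s) = (nx q.1 x.1, x.2) :: M.dual.act (ou q.1 x) s := rfl

/-- The dual transformation of a letter only looks at the basic parts of the states. -/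
theorem dual_forget (y : Bool × Bool) (s s' : List (B × Bool))
    (h : s.map Prod.fst = s'.map Prod.fst) : M.dual.act y s = M.dual.act y s' := by
  induction s generalizing y s' with
  | nil =>
    cases s' with
    | nil => rfl
    | cons q' s' => simp at h
  | cons q s ih =>
    cases s' with
    | nil => simp at h
    | cons q' s' =>
      rw [List.map_cons, List.map_cons, List.cons.injEq] at h
      rw [dual_act_cons, dual_act_cons, h.1, ih _ _ h.2]

/-- Letters with the same first coordinate have the same effect on the basic parts. -/
theorem dual_same (x x' : Bool × Bool) (hx : x.1 = x'.1) (s : List (B × Bool)) :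
    (M.dual.act x s).map Prod.fst = (M.dual.act x' s).map Prod.fst := by
  have hou : ∀ (q : B) (x x' : Bool × Bool), x.1 = x'.1 → (ou q x).1 = (ou q x').1 := by decide
  induction s generalizing x x' with
  | nil => rfl
  | cons q s ih =>
    rw [dual_act_cons, dual_act_cons, List.map_cons, List.map_cons, hx,
      ih _ _ (hou q.1 x x' hx)]

/-- There is a finite Mealy automaton `M`, over an alphabet with 4 letters and with 6 states, such
that

* every state acts on words by a permutation and the semigroup `S(M)` is transitive on the tree;
* the semigroup of the dual automaton is not freely generated by the maps `a ∘ (·)`;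
* the semigroup of the dual automaton is not isomorphic to any free semigroup
  (it is not cancellative).
-/
theorem result :
    ∃ (Q A : Type) (_ : Fintype Q) (_ : Fintype A) (M : Mealy Q A),
      Fintype.card Q = 6 ∧ Fintype.card A = 4 ∧
      (∀ q, Function.Bijective (M.act q)) ∧
      M.Transitive ∧
      ¬ M.dual.FreelyGenerated ∧
      (∃ f ∈ M.dual.semigroup, ∃ g ∈ M.dual.semigroup, ∃ h ∈ M.dual.semigroup,
        f ≠ g ∧ h * f = h * g) ∧
      ¬ ∃ X : Type, Nonempty (FreeSemigroup X ≃* M.dual.semigroup) := by
  have key : M.dual.toEnd (false, false) * M.dual.toEnd (false, false)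
      = M.dual.toEnd (false, false) * M.dual.toEnd (false, true) := by
    funext s
    show M.dual.act (false, false) (M.dual.act (false, false) s) =
      M.dual.act (false, false) (M.dual.act (false, true) s)
    exact dual_forget _ _ _ (dual_same (false, false) (false, true) rfl s)
  have hne : M.dual.toEnd (false, false) ≠ M.dual.toEnd (false, true) := by
    intro h
    have h2 := congrFun h [(B.e, false)]
    have h3 : ([(B.e, false)] : List (B × Bool)) = [(B.e, true)] := h2
    simp at h3
  have hmem : ∀ x, M.dual.toEnd x ∈ M.dual.semigroup := fun x =>
    Subsemigroup.subset_closure ⟨x, rfl⟩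
  refine ⟨B × Bool, Bool × Bool, inferInstance, inferInstance, M, rfl, rfl, act_bij,
    transitive_M, ?_, ⟨_, hmem (false, false), _, hmem (false, true), _, hmem (false, false),
      hne, key⟩, ?_⟩
  · intro h
    refine h [(false, false), (false, false)] [(false, false), (false, true)] (by simp) (by simp)
      (by simp) ?_
    simpa using key
  · rintro ⟨X, ⟨φ⟩⟩
    let f : M.dual.semigroup := ⟨M.dual.toEnd (false, false), hmem _⟩
    let g : M.dual.semigroup := ⟨M.dual.toEnd (false, true), hmem _⟩
    have hfg : f ≠ g := fun h => hne (congrArg Subtype.val h)
    have hk : f * f = f * g := Subtype.ext key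
    have h1 : φ.symm f * φ.symm f = φ.symm f * φ.symm g := by
      rw [← map_mul, ← map_mul, hk]
    have hcancel : ∀ x y z : FreeSemigroup X, x * y = x * z → y = z := by
      rintro ⟨x1, x2⟩ ⟨y1, y2⟩ ⟨z1, z2⟩ h
      have h2 := congrArg FreeSemigroup.tail h
      have h3 : x2 ++ y1 :: y2 = x2 ++ z1 :: z2 := h2
      have h4 := List.append_cancel_left h3
      rw [List.cons.injEq] at h4
      rw [h4.1, h4.2]
    exact hfg (φ.symm.injective (hcancel _ _ _ h1))

end Pool.Agent.Results.MP_407f73_al.DualNotFree
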